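import Mathlib
import Pool.Agent.TH492.Final

/-!
For every graph class with polynomial expansion there is a polynomial `f` in two variables with
`scol_r(G) ≤ f(r, bn_r(G))` for all `r ≥ 0` and all `G` in the class.
-/

set_option autoImplicit false

namespace Pool.Agent.Results.MP_9d6589_co.StrongColBramble

/-- `G[B]` is connected and has radius at most `r`: some centre `x ∈ B` reaches every vertex of `B`
by a walk of length at most `r` inside `B`. -/
def RadiusLE {V : Type} (G : SimpleGraph V) (r : ℕ) (B : Set V) : Prop :=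
  ∃ x ∈ B, ∀ y ∈ B, ∃ p : G.Walk x y, p.length ≤ r ∧ ∀ w ∈ p.support, w ∈ B

/-- `H` is a depth-`r` minor of `G`: there are pairwise disjoint branch sets, one for each vertex of
`H`, each inducing a connected subgraph of radius at most `r`, such that every edge of `H` is
realised by an edge of `G` between the two branch sets. -/
def DepthMinor {V W : Type} (r : ℕ) (H : SimpleGraph W) (G : SimpleGraph V) : Prop :=
  ∃ B : W → Set V, (∀ i j, i ≠ j → Disjoint (B i) (B j)) ∧ (∀ i, RadiusLE G r (B i)) ∧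
    ∀ i j, H.Adj i j → ∃ a ∈ B i, ∃ b ∈ B j, G.Adj a b

/-- A class of graphs (a predicate on finite graphs) has polynomial expansion: for some polynomial
`p`, every depth-`r` minor `H` of a member satisfies `|E(H)| / |V(H)| ≤ p(r)`. -/
def PolynomialExpansion (C : ∀ V : Type, SimpleGraph V → Prop) : Prop :=
  ∃ p : Polynomial ℝ, ∀ (V : Type) (_ : Finite V) (G : SimpleGraph V), C V G →
    ∀ (r : ℕ) (W : Type) (_ : Finite W) (_ : Nonempty W) (H : SimpleGraph W), DepthMinor r H G →
      (H.edgeSet.ncard : ℝ) / (Nat.card W : ℝ) ≤ p.eval (r : ℝ)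

/-- `SReach[r, π, v]` for the linear order of `V` given by the injective position function `π`. -/
def SReach {V : Type} (G : SimpleGraph V) (r : ℕ) (π : V → ℕ) (v : V) : Set V :=
  {u | π u ≤ π v ∧ ∃ p : G.Walk v u, p.IsPath ∧ p.length ≤ r ∧
    ∀ w ∈ p.support, w ≠ v → w ≠ u → π v < π w}

/-- The strong `r`-coloring number. -/
noncomputable def scol {V : Type} (G : SimpleGraph V) (r : ℕ) : ℕ :=
  sInf {k | ∃ π : V → ℕ, Function.Injective π ∧ ∀ v, (SReach G r π v).ncard ≤ k}

/-- Two vertex sets touch if they share a vertex or some edge joins them. -/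
def Touch {V : Type} (G : SimpleGraph V) (A B : Set V) : Prop :=
  (A ∩ B).Nonempty ∨ ∃ a ∈ A, ∃ b ∈ B, G.Adj a b

/-- A depth-`r` bramble: a family of pairwise touching connected vertex sets of radius at most
`r`. -/
def IsBramble {V : Type} (G : SimpleGraph V) (r : ℕ) (F : Set (Set V)) : Prop :=
  (∀ B ∈ F, RadiusLE G r B) ∧ ∀ A ∈ F, ∀ B ∈ F, Touch G A B

/-- The order of a family of sets: the least size of a vertex set meeting every member. -/
noncomputable def order {V : Type} (F : Set (Set V)) : ℕ :=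
  sInf {k | ∃ X : Set V, X.ncard = k ∧ ∀ B ∈ F, (B ∩ X).Nonempty}

/-- The depth-`r` bramble number: the largest order of a depth-`r` bramble. -/
noncomputable def bn {V : Type} (G : SimpleGraph V) (r : ℕ) : ℕ :=
  sSup {k | ∃ F : Set (Set V), IsBramble G r F ∧ order F = k}

/-- For every class with polynomial expansion there is a polynomial `f` in two variables (even with
nonnegative integer coefficients) with `scol_r(G) ≤ f(r, bn_r(G))` for every `r ≥ 0` and every `G`
in the class. -/
theorem result (C : ∀ V : Type, SimpleGraph V → Prop) (hC : PolynomialExpansion C) :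
    ∃ f : MvPolynomial (Fin 2) ℕ, ∀ (V : Type) (_ : Finite V) (G : SimpleGraph V), C V G →
      ∀ r : ℕ, scol G r ≤ MvPolynomial.eval ![r, bn G r] f := by
  classical
  obtain ⟨p, hp⟩ := hC
  -- polynomial bound in the form `c (r+1)^k`
  obtain ⟨c, k, hck⟩ : ∃ c k : ℕ, ∀ r : ℕ, p.eval (r : ℝ) ≤ (c : ℝ) * ((r : ℝ) + 1) ^ k := by
    refine ⟨⌈∑ i ∈ Finset.range (p.natDegree + 1), |p.coeff i|⌉₊, p.natDegree, fun r => ?_⟩
    rw [Polynomial.eval_eq_sum_range]
    have h1 : (∑ i ∈ Finset.range (p.natDegree + 1), p.coeff i * (r : ℝ) ^ i) ≤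
        ∑ i ∈ Finset.range (p.natDegree + 1), |p.coeff i| * ((r : ℝ) + 1) ^ p.natDegree := by
      apply Finset.sum_le_sum
      intro i hi
      have hi' : i ≤ p.natDegree := by
        rw [Finset.mem_range] at hi; omega
      have h2 : (r : ℝ) ^ i ≤ ((r : ℝ) + 1) ^ p.natDegree := by
        calc (r : ℝ) ^ i ≤ ((r : ℝ) + 1) ^ i := by gcongr; linarith
          _ ≤ ((r : ℝ) + 1) ^ p.natDegree := by
            apply pow_le_pow_right₀ _ hi'
            have : (0 : ℝ) ≤ r := Nat.cast_nonneg r
            linarith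
      calc p.coeff i * (r : ℝ) ^ i ≤ |p.coeff i| * (r : ℝ) ^ i := by
            gcongr
            exact le_abs_self _
        _ ≤ _ := by gcongr
    rw [← Finset.sum_mul] at h1
    refine h1.trans ?_
    gcongr
    exact Nat.le_ceil _
  -- the class of all labelled copies
  let C' : (n : ℕ) → SimpleGraph (Fin n) → Prop := fun n G' =>
    ∃ (V : Type) (_ : Finite V) (G : SimpleGraph V), C V G ∧ Nonempty (G' ≃g G)
  obtain ⟨d, -, c', hmain⟩ := Pool.Agent.TH492.main C' ⟨c, k, by
    rintro r n G' ⟨V, hV, G, hG, ⟨e⟩⟩ m H B h1 h2 h3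
    rcases Nat.eq_zero_or_pos m with rfl | hm
    · have : H.edgeSet = ∅ := by
        ext x
        induction x using Sym2.ind with
        | _ a b => exact a.elim0
      simp [this]
    have : Nonempty (Fin m) := ⟨⟨0, hm⟩⟩
    have h4 : DepthMinor r H G := by
      refine ⟨fun i => e '' (B i), ?_, ?_, ?_⟩
      · intro i j hij
        rw [Set.disjoint_image_iff e.injective]
        exact h1 i j hij
      · intro i
        obtain ⟨x, hx, hx2⟩ := h2 i
        refine ⟨e x, ⟨x, hx, rfl⟩, ?_⟩
        rintro _ ⟨y, hy, rfl⟩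
        obtain ⟨q, hq1, hq2⟩ := hx2 y hy
        refine ⟨q.map e.toHom, by simpa using hq1, ?_⟩
        intro w hw
        rw [SimpleGraph.Walk.support_map, List.mem_map] at hw
        obtain ⟨a, ha, rfl⟩ := hw
        exact ⟨a, hq2 a ha, rfl⟩
      · intro i j hij
        obtain ⟨a, ha, b, hb, hab⟩ := h3 i j hij
        exact ⟨e a, ⟨a, ha, rfl⟩, e b, ⟨b, hb, rfl⟩, e.map_adj_iff.2 hab⟩
    have h5 := hp V hV G hG r (Fin m) inferInstance this H h4
    have h6 : (H.edgeSet.ncard : ℝ) / (Nat.card (Fin m) : ℝ) ≤ (c : ℝ) * ((r : ℝ) + 1) ^ k :=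
      h5.trans (hck r)
    rw [Nat.card_fin, div_le_iff₀ (by exact_mod_cast hm)] at h6
    exact_mod_cast h6⟩
  refine ⟨MvPolynomial.C c' * MvPolynomial.X 0 ^ d + 1, ?_⟩
  intro V hV G hG r
  have heval : MvPolynomial.eval ![r, bn G r]
      (MvPolynomial.C c' * MvPolynomial.X 0 ^ d + 1 : MvPolynomial (Fin 2) ℕ) = c' * r ^ d + 1 := by
    simp
  rw [heval]
  obtain ⟨e⟩ : Nonempty (V ≃ Fin (Nat.card V)) := ⟨Finite.equivFin V⟩
  let G' : SimpleGraph (Fin (Nat.card V)) := G.comap e.symm
  let φ : G' ≃g G := ⟨e.symm, by intro a b; rfl⟩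
  apply Nat.sInf_le
  rcases Nat.eq_zero_or_pos r with rfl | hr
  · refine ⟨fun v => (e v).val, fun a b h => e.injective (Fin.ext h), fun v => ?_⟩
    have : SReach G 0 (fun v => (e v).val) v ⊆ {v} := by
      rintro u ⟨-, q, -, hq, -⟩
      have := SimpleGraph.Walk.eq_of_length_eq_zero (Nat.le_zero.1 hq)
      exact this.symm
    have h2 := Set.ncard_le_ncard this (Set.finite_singleton v)
    rw [Set.ncard_singleton] at h2
    omega
  · obtain ⟨σ, hσ⟩ := hmain r hr _ G' ⟨V, hV, G, hG, ⟨φ⟩⟩
    refine ⟨fun v => (σ (e v)).val, fun a b h => e.injective (σ.injective (Fin.ext h)), fun v => ?_⟩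
    have h1 : SReach G r (fun v => (σ (e v)).val) v ⊆
        insert v (e.symm '' {u : Fin (Nat.card V) | σ u < σ (e v) ∧ ∃ p : G'.Walk u (e v),
          p.length ≤ r ∧ ∀ w ∈ p.support, w ≠ u → w ≠ e v → σ (e v) < σ w}) := by
      rintro u ⟨hu, q, -, hq, hq2⟩
      by_cases huv : u = v
      · exact Or.inl huv
      · refine Or.inr ⟨e u, ⟨?_, ?_⟩, by simp⟩
        · rcases lt_or_eq_of_le hu with h | h
          · exact h
          · exact absurd (e.injective (σ.injective (Fin.ext h))) huv
        · let ψ : G →g G' := ⟨e, by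
            intro a b hab
            simpa [G'] using hab⟩
          refine ⟨(q.reverse).map ψ, by simpa using hq, ?_⟩
          intro w hw hwu hwv
          rw [SimpleGraph.Walk.support_map, List.mem_map] at hw
          obtain ⟨a, ha, rfl⟩ := hw
          have ha' : a ∈ q.support := by simpa using ha
          exact hq2 a ha' (fun h => hwv (by rw [h]; rfl)) (fun h => hwu (by rw [h]; rfl))
    have h2 := Set.ncard_le_ncard h1 (Set.toFinite _)
    have h3 := Set.ncard_insert_le v (e.symm '' {u : Fin (Nat.card V) | σ u < σ (e v) ∧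
      ∃ p : G'.Walk u (e v), p.length ≤ r ∧ ∀ w ∈ p.support, w ≠ u → w ≠ e v → σ (e v) < σ w})
    have h4 := Set.ncard_image_le (f := e.symm) (Set.toFinite {u : Fin (Nat.card V) |
      σ u < σ (e v) ∧ ∃ p : G'.Walk u (e v),
        p.length ≤ r ∧ ∀ w ∈ p.support, w ≠ u → w ≠ e v → σ (e v) < σ w})
    have h5 := hσ (e v)
    omega

end Pool.Agent.Results.MP_9d6589_co.StrongColBramble
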